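import Mathlib

set_option autoImplicit false

namespace Pool.Agent.Results.MP_e47ea7_co.No

open SimpleGraph

/-- `f` embeds `H` as a rainbow subgraph of the edge-coloured graph `(G, χ)`. -/
def Rainbow {W V : Type} (H : SimpleGraph W) (G : SimpleGraph V) (χ : Sym2 V → ℕ) (f : W → V) :
    Prop :=
  Function.Injective f ∧ (∀ x y, H.Adj x y → G.Adj (f x) (f y)) ∧
    Set.InjOn (fun e => χ (e.map f)) H.edgeSet

open Classical in
/-- `(G, χ)` is weakly `H`-rainbow saturated: the missing edges have an ordering `l` such that,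
whatever pairwise distinct colours `c` they get, each one lies in a rainbow copy of `H` when it is
added. -/
def WSat {W V : Type} (H : SimpleGraph W) (G : SimpleGraph V) (χ : Sym2 V → ℕ) : Prop :=
  ∃ l : List (Sym2 V), l.Nodup ∧ (∀ e, e ∈ l ↔ e ∈ (⊤ : SimpleGraph V).edgeSet \ G.edgeSet) ∧
    ∀ c : Sym2 V → ℕ, Set.InjOn c {e | e ∈ l} → ∀ (i : ℕ) (hi : i < l.length), ∃ f,
      Rainbow H (G ⊔ fromEdgeSet {e | e ∈ l.take (i + 1)})
        (fun e => if e ∈ G.edgeSet then χ e else c e) f ∧ l[i] ∈ Sym2.map f '' H.edgeSet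

lemma perm {V : Type} {d g : Sym2 V} (hd : ¬ d.IsDiag) (hg : ¬ g.IsDiag) :
    ∃ σ : Equiv.Perm V, d.map σ = g := by
  classical
  induction d using Sym2.ind with | _ a b
  induction g using Sym2.ind with | _ x y
  rw [Sym2.mk_isDiag_iff] at hd hg
  refine ⟨Equiv.swap (Equiv.swap a x b) y * Equiv.swap a x, ?_⟩
  have : x ≠ Equiv.swap a x b := fun e => hd (by
    apply (Equiv.swap a x).injective; rw [← e, Equiv.swap_apply_left])
  simp [Equiv.swap_apply_of_ne_of_ne this hg]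

/-- The complete graph without the edge `d`. -/
def K {V : Type} (d : Sym2 V) : SimpleGraph V := (⊤ : SimpleGraph V).deleteEdges {d}

lemma mem_K {V : Type} {d e : Sym2 V} : e ∈ (K d).edgeSet ↔ ¬ e.IsDiag ∧ e ≠ d := by
  simp [K, edgeSet_deleteEdges]

lemma copy {V : Type} {d g : Sym2 V} (hd : ¬ d.IsDiag) (hg : ¬ g.IsDiag) (G : SimpleGraph V)
    (χ : Sym2 V → ℕ) (h1 : (K g).edgeSet ⊆ G.edgeSet) (h2 : Set.InjOn χ (K g).edgeSet) :
    ∃ f, Rainbow (K d) G χ f ∧ (K g).edgeSet ⊆ Sym2.map f '' (K d).edgeSet := by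
  obtain ⟨σ, rfl⟩ := perm hd hg
  have inj := Sym2.map.injective σ.injective
  have m : ∀ e ∈ (K d).edgeSet, e.map σ ∈ (K (d.map σ)).edgeSet := fun e he => by
    rw [mem_K] at he ⊢
    exact ⟨by rw [Sym2.isDiag_map σ.injective]; exact he.1, inj.ne he.2⟩
  refine ⟨σ, ⟨σ.injective, fun x y h => h1 (m s(x, y) h), fun a ha b hb e =>
    inj (h2 (m a ha) (m b hb) e)⟩, fun e he => ?_⟩
  obtain ⟨e, rfl⟩ : ∃ e', e'.map σ = e := ⟨e.map σ.symm, by simp [Sym2.map_map]⟩
  rw [mem_K, Sym2.isDiag_map σ.injective] at he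
  exact ⟨e, mem_K.2 ⟨he.1, fun w => he.2 (w ▸ rfl)⟩, rfl⟩

lemma onto {V : Type} [Finite V] {d : Sym2 V} {f : V → V} (hf : Function.Injective f)
    {e : Sym2 V} (h1 : ¬ e.IsDiag) (h2 : e ≠ d.map f) : e ∈ Sym2.map f '' (K d).edgeSet := by
  let σ := Equiv.ofBijective f hf.bijective_of_finite
  obtain ⟨e, rfl⟩ : ∃ e', e'.map f = e :=
    ⟨e.map σ.symm, by rw [Sym2.map_map]; exact (Sym2.map_congr fun x _ => σ.apply_symm_apply x).trans (by simp)⟩
  rw [Sym2.isDiag_map hf] at h1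
  exact ⟨e, mem_K.2 ⟨h1, fun w => h2 (w ▸ rfl)⟩, rfl⟩

theorem result (n : ℕ) (hn : 3 ≤ n) : ∃ H : SimpleGraph (Fin n), H ≠ ⊥ ∧ ∃ m : ℕ,
    (∃ (G : SimpleGraph (Fin n)) (χ : Sym2 (Fin n) → ℕ), WSat H G χ ∧ G.edgeSet.ncard = m) ∧
    ∀ (G : SimpleGraph (Fin n)) (χ : Sym2 (Fin n) → ℕ), WSat H G χ → (¬ ∃ f, Rainbow H G χ f) →
      m < G.edgeSet.ncard := by
  classical
  obtain ⟨n, rfl⟩ : ∃ k, n = k + 3 := ⟨n - 3, by omega⟩
  have other : ∀ e : Sym2 (Fin (n + 3)), ∀ e' : Sym2 (Fin (n + 3)), ∃ g, ¬ g.IsDiag ∧ g ≠ e ∧ g ≠ e' := by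
    intro e e'
    obtain ⟨x, y, z, h01, h02, h12⟩ : ∃ x y z : Fin (n + 3), x ≠ y ∧ x ≠ z ∧ y ≠ z :=
      ⟨⟨0, by omega⟩, ⟨1, by omega⟩, ⟨2, by omega⟩, by simp, by simp, by simp⟩
    by_contra w
    push Not at w
    have a := w s(x, y) (by simpa using h01)
    have b := w s(x, z) (by simpa using h02)
    have c := w s(y, z) (by simpa using h12)
    have p : s(x, y) ≠ s(x, z) := by simp [h12, h02]
    have q : s(x, y) ≠ s(y, z) := by simp [h01, h12, h02]
    have r : s(x, z) ≠ s(y, z) := by simp [h01, h02]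
    generalize s(x, y) = u at *
    generalize s(x, z) = v at *
    generalize s(y, z) = t at *
    by_cases h1 : u = e
    · exact r ((b (h1 ▸ p.symm)).trans (c (h1 ▸ q.symm)).symm)
    · by_cases h2 : v = e
      · exact q ((a h1).trans (c (h2 ▸ r.symm)).symm)
      · exact p ((a h1).trans (b h2).symm)
  obtain ⟨d, hd, -⟩ := other s(0, 0) s(0, 0)
  obtain ⟨χ, hχ⟩ := Countable.exists_injective_nat (Sym2 (Fin (n + 3)))
  refine ⟨K d, fun e => ?_, _, ⟨K d, χ, ⟨[d], by simp, fun e => ?_, fun c _ i hi => ?_⟩, rfl⟩,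
    fun G ψ ⟨l, l1, l2, l3⟩ hfree => ?_⟩
  · obtain ⟨g, h1, h2, -⟩ := other d d
    simpa [e] using mem_K.2 ⟨h1, h2⟩
  · rw [Set.mem_sdiff, mem_K]
    by_cases h : e = d <;> simp [h, hd]
  · obtain rfl : i = 0 := by simpa using hi
    obtain ⟨g, g1, g2, g3⟩ : ∃ g, ¬ g.IsDiag ∧ g ≠ d ∧ ∀ e ∈ (K d).edgeSet, χ e = c d → e = g := by
      by_cases h : ∃ e ∈ (K d).edgeSet, χ e = c d
      · obtain ⟨g, h1, h2⟩ := h
        exact ⟨g, (mem_K.1 h1).1, (mem_K.1 h1).2, fun e _ w => hχ (w.trans h2.symm)⟩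
      · obtain ⟨g, h1, h2, -⟩ := other d d
        exact ⟨g, h1, h2, fun e a w => (h ⟨e, a, w⟩).elim⟩
    obtain ⟨f, f1, f2⟩ := copy hd g1 (K d ⊔ fromEdgeSet {e | e ∈ [d].take (0 + 1)})
      (fun e => if e ∈ (K d).edgeSet then χ e else c e) (fun e he => by
        rw [edgeSet_sup, Set.mem_union, mem_K]
        by_cases h : e = d <;> simp [h, hd, (mem_K.1 he).1]) (fun a ha b hb e => by
        have k : ∀ x ∈ (K g).edgeSet, x ∉ (K d).edgeSet → x = d := fun x h1 h2 => by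
          by_contra w; exact h2 (mem_K.2 ⟨(mem_K.1 h1).1, w⟩)
        beta_reduce at e
        split_ifs at e with h1 h2 h2
        · exact hχ e
        · exact absurd (g3 a h1 (k b hb h2 ▸ e)) (mem_K.1 ha).2
        · exact absurd (g3 b h2 (k a ha h1 ▸ e.symm)) (mem_K.1 hb).2
        · rw [k a ha h1, k b hb h2])
    exact ⟨f, f1, f2 (mem_K.2 ⟨hd, g2.symm⟩)⟩
  · rcases l with _ | ⟨e, l⟩
    · refine Set.ncard_lt_ncard ⟨fun x hx => ?_, fun w => ?_⟩
      · by_contra w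
        simpa using (l2 x).2 ⟨by simpa using (mem_K.1 hx).1, w⟩
      · by_cases h : d ∈ G.edgeSet
        · exact (mem_K.1 (w h)).2 rfl
        · simpa using (l2 d).2 ⟨by simpa using hd, h⟩
    exfalso
    have he := (l2 e).1 (by simp)
    have he1 : ¬ e.IsDiag := by simpa using he.1
    have key : ∀ κ, ∃ g, ∀ x, ¬ x.IsDiag → x ≠ g → x ≠ e → x ∈ G.edgeSet ∧ ψ x ≠ κ := by
      intro κ
      obtain ⟨f, ⟨f1, f2, f3⟩, e', f4, f5⟩ := l3 (fun x => if x = e then κ else κ + 1 + χ x)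
        (fun a _ b _ w => by
          beta_reduce at w
          split_ifs at w with h1 h2 h2
          · rw [h1, h2]
          · omega
          · omega
          · exact hχ (by omega)) 0 (by simp)
      refine ⟨d.map f, fun x x1 x2 x3 => ?_⟩
      obtain ⟨y, hy, rfl⟩ := onto f1 x1 x2
      have : y.map f ∈ G.edgeSet := by
        induction y using Sym2.ind with | _ a b
        rcases f2 a b hy with h | h
        · exact h
        · exact absurd (by simpa using h.1) x3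
      refine ⟨this, fun w => x3 ?_⟩
      have f5 : e'.map f = e := f5
      rw [f3 hy f4 (by simp only [f5, this, he.2, if_true, if_false, w]), f5]
    have k2 : ∀ h ∈ G.edgeSet, ∀ x, ¬ x.IsDiag → x ≠ h → x ≠ e → x ∈ G.edgeSet ∧ ψ x ≠ ψ h := by
      intro h hh
      obtain ⟨g, hg⟩ := key (ψ h)
      obtain rfl : h = g := by
        by_contra w
        exact (hg h (G.not_isDiag_of_mem_edgeSet hh) w (by rintro rfl; exact he.2 hh)).2 rfl
      exact hg
    obtain ⟨g, hg⟩ := key 0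
    obtain ⟨h, h1, h2, h3⟩ := other g e
    have hh := (hg h h1 h2 h3).1
    have sub : (K e).edgeSet ⊆ G.edgeSet := fun x hx => by
      by_cases w : x = h
      · exact w ▸ hh
      · exact (k2 h hh x (mem_K.1 hx).1 w (mem_K.1 hx).2).1
    obtain ⟨f, hf, -⟩ := copy hd he1 G ψ sub fun a ha b hb w => by
      by_contra c
      exact (k2 b (sub hb) a (mem_K.1 ha).1 c (mem_K.1 ha).2).2 w
    exact hfree ⟨f, hf⟩

end Pool.Agent.Results.MP_e47ea7_co.No
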